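import Pool.Agent.N979.MH.Stm

/-!
# Project MH, module EN: the energy identity for the difference of a Galerkin solution and a
given curve
-/

set_option autoImplicit false

open MeasureTheory Set Filter Topology
open scoped InnerProductSpace ENNReal ContDiff NNReal

namespace N979MH.ENp

open H772R2.NS

/-- Differentiation under the integral sign, one-sided derivatives. -/
lemma hasDerivWithinAt_integral {F : ℝ → E3 → ℝ} {F' : E3 → ℝ} {S : Set ℝ} {t : ℝ}
    {b : E3 → ℝ} (hb : Integrable b) (ht : t ∈ S) (hF : ∀ s ∈ S, Integrable (F s))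
    (hlip : ∀ s ∈ S, ∀ x, |F s x - F t x| ≤ b x * |s - t|)
    (hder : ∀ x, HasDerivWithinAt (fun s => F s x) (F' x) S t) :
    HasDerivWithinAt (fun s => ∫ x, F s x) (∫ x, F' x) S t := by
  rw [hasDerivWithinAt_iff_tendsto_slope]
  have h1 : ∀ x, Tendsto (fun s => slope (fun s => F s x) t s) (𝓝[S \ {t}] t) (𝓝 (F' x)) :=
    fun x => hasDerivWithinAt_iff_tendsto_slope.1 (hder x)
  have h2 : Tendsto (fun s => ∫ x, slope (fun s => F s x) t s) (𝓝[S \ {t}] t)
      (𝓝 (∫ x, F' x)) := by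
    refine tendsto_integral_filter_of_dominated_convergence b ?_ ?_ hb
      (Eventually.of_forall h1)
    · filter_upwards [self_mem_nhdsWithin] with s hs
      exact (((hF s hs.1).sub (hF t ht)).const_mul (s - t)⁻¹).aestronglyMeasurable
    · filter_upwards [self_mem_nhdsWithin] with s hs
      refine Eventually.of_forall fun x => ?_
      have h3 : 0 < |s - t| := abs_pos.2 (sub_ne_zero.2 hs.2)
      rw [slope_def_field, Real.norm_eq_abs, abs_div, div_le_iff₀ h3]
      exact hlip s hs.1 x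
  refine h2.congr' ?_
  filter_upwards [self_mem_nhdsWithin] with s hs
  rw [slope_def_field, ← integral_sub (hF s hs.1) (hF t ht), ← integral_div]
  refine integral_congr_ae (Eventually.of_forall fun x => ?_)
  simp only [slope_def_field]

variable {Ω : Set E3} {N : ℕ} {φ : Fin N → E3 → E3}

lemma fld_sub (c d : Fin N → ℝ) (x : E3) : fld φ (c - d) x = fld φ c x - fld φ d x := by
  simp only [fld, Pi.sub_apply, sub_smul, Finset.sum_sub_distrib]

lemma hasFDerivAt_fld (hφ : ∀ k, IsTest Ω (φ k)) (c : Fin N → ℝ) (x : E3) :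
    HasFDerivAt (fld φ c) (∑ k, c k • fderiv ℝ (φ k) x) x := by
  have h1 : HasFDerivAt (fun y => ∑ k, c k • φ k y) (∑ k, c k • fderiv ℝ (φ k) x) x := by
    refine HasFDerivAt.fun_sum fun k _ => ?_
    exact (((hφ k).smooth.differentiable (by simp)) x).hasFDerivAt.const_smul (c k)
  exact h1

lemma fderiv_fld (hφ : ∀ k, IsTest Ω (φ k)) (c : Fin N → ℝ) (x : E3) :
    fderiv ℝ (fld φ c) x = ∑ k, c k • fderiv ℝ (φ k) x := (hasFDerivAt_fld hφ c x).fderiv

lemma fderiv_fld_sub (hφ : ∀ k, IsTest Ω (φ k)) (c d : Fin N → ℝ) (x v : E3) :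
    fderiv ℝ (fld φ (c - d)) x v = fderiv ℝ (fld φ c) x v - fderiv ℝ (fld φ d) x v := by
  rw [fderiv_fld hφ, fderiv_fld hφ, fderiv_fld hφ]
  have h1 : (∑ k, (c - d) k • fderiv ℝ (φ k) x) =
      (∑ k, c k • fderiv ℝ (φ k) x) - ∑ k, d k • fderiv ℝ (φ k) x := by
    rw [← Finset.sum_sub_distrib]
    exact Finset.sum_congr rfl fun k _ => sub_smul (c k) (d k) (fderiv ℝ (φ k) x)
  rw [h1]
  rfl

lemma cont_fld (hφ : ∀ k, IsTest Ω (φ k)) (c : Fin N → ℝ) : Continuous (fld φ c) :=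
  continuous_iff_continuousAt.2 fun x => (hasFDerivAt_fld hφ c x).continuousAt

lemma cont_fderiv (hφ : ∀ k, IsTest Ω (φ k)) (k : Fin N) : Continuous (fderiv ℝ (φ k)) :=
  (hφ k).smooth.continuous_fderiv (by simp)

lemma cont_fderiv_fld (hφ : ∀ k, IsTest Ω (φ k)) (c : Fin N → ℝ) :
    Continuous (fderiv ℝ (fld φ c)) := by
  have h1 : fderiv ℝ (fld φ c) = fun x => ∑ k, c k • fderiv ℝ (φ k) x :=
    funext fun x => fderiv_fld hφ c x
  rw [h1]
  exact continuous_finsetSum _ fun k _ => (cont_fderiv hφ k).const_smul (c k)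

lemma jac_fld (hφ : ∀ k, IsTest Ω (φ k)) (c : Fin N → ℝ) (x : E3) :
    jac (fld φ c) x = ∑ k, c k • jac (φ k) x := by
  ext p
  have h1 : (∑ k, c k • jac (φ k) x) p = ∑ k, c k * jac (φ k) x p := by
    exact map_sum (EuclideanSpace.proj p : EuclideanSpace ℝ (Fin 3 × Fin 3) →L[ℝ] ℝ)
      (fun k => c k • jac (φ k) x) Finset.univ
  rw [h1]
  have h3 : jac (fld φ c) x p = fderiv ℝ (fld φ c) x (EuclideanSpace.single p.2 1) p.1 := rfl
  rw [h3, fderiv_fld hφ, _root_.sum_apply]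
  exact map_sum (EuclideanSpace.proj p.1 : EuclideanSpace ℝ (Fin 3) →L[ℝ] ℝ)
    (fun k => (c k • fderiv ℝ (φ k) x) (EuclideanSpace.single p.2 1)) Finset.univ

lemma cont_jac (hφ : ∀ k, IsTest Ω (φ k)) (k : Fin N) : Continuous (jac (φ k)) := by
  have h1 : Continuous fun x => (fun p : Fin 3 × Fin 3 =>
      fderiv ℝ (φ k) x (EuclideanSpace.single p.2 1) p.1) := by
    refine continuous_pi fun p => ?_
    have h2 : Continuous fun x => fderiv ℝ (φ k) x (EuclideanSpace.single p.2 1) :=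
      (cont_fderiv hφ k).clm_apply continuous_const
    exact (EuclideanSpace.proj p.1 : EuclideanSpace ℝ (Fin 3) →L[ℝ] ℝ).continuous.comp h2
  exact (PiLp.continuous_toLp 2 _).comp h1

/-- The union of the supports. -/
def K0 (φ : Fin N → E3 → E3) : Set E3 := ⋃ k, tsupport (φ k)

lemma compact_K0 (hφ : ∀ k, IsTest Ω (φ k)) : IsCompact (K0 φ) :=
  isCompact_iUnion fun k => (hφ k).compact

lemma zero_of_notMem {x : E3} (hx : x ∉ K0 φ) (k : Fin N) : φ k x = 0 := by
  apply image_eq_zero_of_notMem_tsupport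
  intro h
  exact hx (mem_iUnion.2 ⟨k, h⟩)

lemma fderiv_zero_of_notMem {x : E3} (hx : x ∉ K0 φ) (k : Fin N) : fderiv ℝ (φ k) x = 0 := by
  by_contra h
  have h1 : x ∈ tsupport (fderiv ℝ (φ k)) := subset_tsupport _ h
  exact hx (mem_iUnion.2 ⟨k, tsupport_fderiv_subset ℝ h1⟩)

lemma jac_zero_of_notMem {x : E3} (hx : x ∉ K0 φ) (k : Fin N) : jac (φ k) x = 0 := by
  ext p
  show fderiv ℝ (φ k) x (EuclideanSpace.single p.2 1) p.1 = 0
  rw [fderiv_zero_of_notMem hx]
  rfl

lemma fld_zero_of_notMem {x : E3} (hx : x ∉ K0 φ) (c : Fin N → ℝ) : fld φ c x = 0 := by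
  rw [fld]
  exact Finset.sum_eq_zero fun k _ => by rw [zero_of_notMem hx, smul_zero]

lemma integ (hφ : ∀ k, IsTest Ω (φ k)) {a h : E3 → ℝ} (ha : Measurable a)
    (ha2 : ∀ x, 1 ≤ a x ∧ a x ≤ 2) (hc : Continuous h) (h0 : ∀ x, x ∉ K0 φ → h x = 0) :
    Integrable (fun x => a x * h x) := by
  have h1 : Integrable h := hc.integrable_of_hasCompactSupport
    (HasCompactSupport.intro (compact_K0 hφ) fun x hx => h0 x hx)
  refine h1.bdd_mul (c := 2) ha.aestronglyMeasurable (Eventually.of_forall fun x => ?_)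
  rw [Real.norm_eq_abs, abs_of_pos (by linarith [(ha2 x).1])]
  exact (ha2 x).2

lemma integ1 (hφ : ∀ k, IsTest Ω (φ k)) {h : E3 → ℝ} (hc : Continuous h)
    (h0 : ∀ x, x ∉ K0 φ → h x = 0) : Integrable h :=
  hc.integrable_of_hasCompactSupport
    (HasCompactSupport.intro (compact_K0 hφ) fun x hx => h0 x hx)

/-- Uniform bounds. -/
lemma exists_bound (hφ : ∀ k, IsTest Ω (φ k)) : ∃ C : ℝ, 0 ≤ C ∧ ∀ (b : Fin N → ℝ),
    (∀ x, ‖fld φ b x‖ ≤ C * ‖b‖) ∧ ∀ x v, ‖fderiv ℝ (fld φ b) x v‖ ≤ C * ‖b‖ * ‖v‖ := by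
  have h1 : ∀ k, ∃ C, ∀ x, ‖φ k x‖ ≤ C := fun k =>
    (hφ k).compact.exists_bound_of_continuous (hφ k).smooth.continuous
  have h2 : ∀ k, ∃ C, ∀ x, ‖fderiv ℝ (φ k) x‖ ≤ C := fun k =>
    ((hφ k).compact.fderiv ℝ).exists_bound_of_continuous (cont_fderiv hφ k)
  choose C1 hC1 using h1
  choose C2 hC2 using h2
  have hC1' : ∀ k, 0 ≤ C1 k := fun k => (norm_nonneg _).trans (hC1 k 0)
  have hC2' : ∀ k, 0 ≤ C2 k := fun k => (norm_nonneg _).trans (hC2 k 0)
  refine ⟨∑ k, C1 k + ∑ k, C2 k, add_nonneg (Finset.sum_nonneg fun k _ => hC1' k)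
    (Finset.sum_nonneg fun k _ => hC2' k), fun b => ⟨fun x => ?_, fun x v => ?_⟩⟩
  · calc ‖fld φ b x‖ ≤ ∑ k, ‖b k • φ k x‖ := norm_sum_le _ _
      _ ≤ ∑ k, ‖b‖ * C1 k := by
          refine Finset.sum_le_sum fun k _ => ?_
          rw [norm_smul]
          exact mul_le_mul (norm_le_pi_norm b k) (hC1 k x) (norm_nonneg _) (norm_nonneg _)
      _ = (∑ k, C1 k) * ‖b‖ := by rw [← Finset.mul_sum, mul_comm]
      _ ≤ (∑ k, C1 k + ∑ k, C2 k) * ‖b‖ := by
          have := Finset.sum_nonneg fun k (_ : k ∈ Finset.univ) => hC2' k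
          gcongr
          linarith
  · rw [fderiv_fld hφ, _root_.sum_apply]
    calc ‖∑ k, (b k • fderiv ℝ (φ k) x) v‖ ≤ ∑ k, ‖(b k • fderiv ℝ (φ k) x) v‖ := norm_sum_le _ _
      _ ≤ ∑ k, ‖b‖ * C2 k * ‖v‖ := by
          refine Finset.sum_le_sum fun k _ => ?_
          refine (ContinuousLinearMap.le_opNorm _ _).trans ?_
          rw [norm_smul]
          gcongr
          · exact norm_le_pi_norm b k
          · exact hC2 k x
      _ = (∑ k, C2 k) * ‖b‖ * ‖v‖ := by
          rw [← Finset.sum_mul, ← Finset.mul_sum]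
          ring
      _ ≤ (∑ k, C1 k + ∑ k, C2 k) * ‖b‖ * ‖v‖ := by
          have := Finset.sum_nonneg fun k (_ : k ∈ Finset.univ) => hC1' k
          gcongr
          linarith

end N979MH.ENp

namespace N979MH

open H772R2.NS ENp

theorem en_holds : StmEN := by
  intro Ω N φ hφ t0 T a f c c' X Y htT ha ha2 hf hG d d' hd hd' t ht
  set S : Set ℝ := Icc t0 T with hS
  have hXcont : ∀ s, Continuous (X s) := fun s =>
    hG.Xc.comp (continuous_const.prodMk continuous_id)
  have hfix : ∀ x, x ∉ K0 φ → ∀ s, X s x = x := fun x hx s =>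
    hG.fix x (fun k => zero_of_notMem hx k) s
  -- the difference
  set w : ℝ → E3 → E3 := fun s x => fld φ (c s - d s) (X s x) with hw
  set w' : ℝ → E3 → E3 := fun s x => fld φ (c' s - d' s) (X s x) +
    fderiv ℝ (fld φ (c s - d s)) (X s x) (fld φ (c s) (X s x)) with hw'
  have hw0 : ∀ x, x ∉ K0 φ → ∀ s, w s x = 0 := by
    intro x hx s
    rw [hw]
    show fld φ (c s - d s) (X s x) = 0
    rw [hfix x hx]
    exact fld_zero_of_notMem hx _
  have hderw : ∀ s ∈ S, ∀ x, HasDerivWithinAt (fun s => w s x) (w' s x) S s := by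
    intro s hs x
    have h1 : ∀ k, HasDerivWithinAt (fun s => (c s - d s) k) ((c' s - d' s) k) S s := fun k =>
      (hasDerivWithinAt_pi.1 ((hG.dc s hs).sub (hd s hs))) k
    have h2 : ∀ k, HasDerivWithinAt (fun s => φ k (X s x))
        (fderiv ℝ (φ k) (X s x) (fld φ (c s) (X s x))) S s := fun k =>
      (((hφ k).smooth.differentiable (by simp)) (X s x)).hasFDerivAt.comp_hasDerivWithinAt s
        (hG.dX s hs x)
    have h3 : HasDerivWithinAt (fun s => ∑ k, (c s - d s) k • φ k (X s x))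
        (∑ k, ((c s - d s) k • fderiv ℝ (φ k) (X s x) (fld φ (c s) (X s x)) +
          (c' s - d' s) k • φ k (X s x))) S s :=
      HasDerivWithinAt.fun_sum fun k _ => (h1 k).smul (h2 k)
    refine h3.congr_deriv ?_
    rw [hw']
    show _ = fld φ (c' s - d' s) (X s x) +
      fderiv ℝ (fld φ (c s - d s)) (X s x) (fld φ (c s) (X s x))
    rw [Finset.sum_add_distrib, add_comm, fderiv_fld hφ, _root_.sum_apply]
    rfl
  -- bounds
  obtain ⟨C, hC0, hC⟩ := exists_bound hφ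
  have hSc : IsCompact S := isCompact_Icc
  obtain ⟨B1, hB1⟩ := hSc.exists_bound_of_continuousOn hG.cc.continuousOn
  obtain ⟨B2, hB2⟩ := hSc.exists_bound_of_continuousOn hG.cc'.continuousOn
  obtain ⟨B3, hB3⟩ := hSc.exists_bound_of_continuousOn
    (fun s hs => (hd s hs).continuousWithinAt : ContinuousOn d S)
  obtain ⟨B4, hB4⟩ := hSc.exists_bound_of_continuousOn hd'
  have hB1' : 0 ≤ B1 := (norm_nonneg _).trans (hB1 t ht)
  have hB2' : 0 ≤ B2 := (norm_nonneg _).trans (hB2 t ht)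
  have hB3' : 0 ≤ B3 := (norm_nonneg _).trans (hB3 t ht)
  have hB4' : 0 ≤ B4 := (norm_nonneg _).trans (hB4 t ht)
  have hwb : ∀ s ∈ S, ∀ x, ‖w s x‖ ≤ C * (B1 + B3) := by
    intro s hs x
    refine ((hC _).1 _).trans ?_
    have : ‖c s - d s‖ ≤ B1 + B3 := (norm_sub_le _ _).trans (add_le_add (hB1 s hs) (hB3 s hs))
    gcongr
  have hw'b : ∀ s ∈ S, ∀ x, ‖w' s x‖ ≤ C * (B2 + B4) + C * (B1 + B3) * (C * B1) := by
    intro s hs x
    refine (norm_add_le _ _).trans (add_le_add ?_ ?_)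
    · refine ((hC _).1 _).trans ?_
      have : ‖c' s - d' s‖ ≤ B2 + B4 := (norm_sub_le _ _).trans (add_le_add (hB2 s hs) (hB4 s hs))
      gcongr
    · refine ((hC _).2 _ _).trans ?_
      have h1 : ‖c s - d s‖ ≤ B1 + B3 := (norm_sub_le _ _).trans (add_le_add (hB1 s hs) (hB3 s hs))
      have h2 : ‖fld φ (c s) (X s x)‖ ≤ C * B1 := by
        refine ((hC _).1 _).trans ?_
        have := hB1 s hs
        gcongr
      gcongr
  set D1 : ℝ := C * (B1 + B3) with hD1
  set D2 : ℝ := C * (B2 + B4) + C * (B1 + B3) * (C * B1) with hD2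
  have hD1' : 0 ≤ D1 := by positivity
  have hD2' : 0 ≤ D2 := by positivity
  -- the derivative under the integral sign
  have hwcont : ∀ s, Continuous (w s) := fun s => (cont_fld hφ _).comp (hXcont s)
  have hmain : HasDerivWithinAt (fun s => ∫ x, a x * ‖w s x‖ ^ 2)
      (∫ x, a x * (2 * ⟪w t x, w' t x⟫_ℝ)) S t := by
    refine hasDerivWithinAt_integral (b := (K0 φ).indicator fun _ => 2 * (2 * (D1 * D2))) ?_ ht ?_ ?_ ?_
    · have h1 : IntegrableOn (fun _ : E3 => 2 * (2 * (D1 * D2))) (K0 φ) :=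
        integrableOn_const (hs := (compact_K0 hφ).measure_lt_top.ne)
      exact h1.integrable_indicator (compact_K0 hφ).measurableSet
    · intro s _
      refine integ hφ ha ha2 ((hwcont s).norm.pow 2) fun x hx => ?_
      rw [hw0 x hx, norm_zero]
      norm_num
    · intro s hs x
      by_cases hx : x ∈ K0 φ
      · rw [indicator_of_mem hx, ← mul_sub, abs_mul, abs_of_pos (by linarith [(ha2 x).1] : 0 < a x)]
        have h1 : ‖‖w s x‖ ^ 2 - ‖w t x‖ ^ 2‖ ≤ 2 * (D1 * D2) * ‖s - t‖ := by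
          refine Convex.norm_image_sub_le_of_norm_hasDerivWithin_le (f := fun s => ‖w s x‖ ^ 2)
            (f' := fun s => 2 * ⟪w s x, w' s x⟫_ℝ) (s := S) ?_ ?_ (convex_Icc t0 T) ht hs
          · intro r hr
            exact (hderw r hr x).norm_sq
          · intro r hr
            rw [norm_mul, Real.norm_eq_abs (2 : ℝ), abs_of_pos two_pos]
            gcongr
            exact (norm_inner_le_norm _ _).trans (mul_le_mul (hwb r hr x) (hw'b r hr x)
              (norm_nonneg _) hD1')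
        rw [Real.norm_eq_abs, Real.norm_eq_abs] at h1
        calc a x * |‖w s x‖ ^ 2 - ‖w t x‖ ^ 2| ≤ 2 * (2 * (D1 * D2) * |s - t|) :=
              mul_le_mul (ha2 x).2 h1 (abs_nonneg _) (by norm_num)
          _ = 2 * (2 * (D1 * D2)) * |s - t| := by ring
      · rw [indicator_of_notMem hx, hw0 x hx, hw0 x hx]
        simp
    · intro x
      exact ((hderw t ht x).norm_sq).const_mul (a x)
  have hmain2 := hmain.const_mul (1 / 2 : ℝ)
  refine hmain2.congr_deriv ?_
  -- the value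
  set e : Fin N → ℝ := c t - d t with he
  set u : E3 → E3 := fld φ (c t) with hu
  set V : E3 → E3 := fun x => fld φ (c' t) (X t x) + fderiv ℝ (fld φ (c t)) (X t x)
    (fld φ (c t) (X t x)) - f t (X t x) with hV
  set U : E3 → E3 := fun x => fld φ (d' t) (X t x) + fderiv ℝ (fld φ (d t)) (X t x)
    (fld φ (c t) (X t x)) with hU
  have hVc : Continuous V := by
    refine (((cont_fld hφ _).comp (hXcont t)).add ?_).sub ((hf t ht).comp (hXcont t))
    exact ((cont_fderiv_fld hφ _).comp (hXcont t)).clm_apply ((cont_fld hφ _).comp (hXcont t))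
  have hUc : Continuous U := by
    refine ((cont_fld hφ _).comp (hXcont t)).add ?_
    exact ((cont_fderiv_fld hφ _).comp (hXcont t)).clm_apply ((cont_fld hφ _).comp (hXcont t))
  have hfc : Continuous (fun x => f t (X t x)) := (hf t ht).comp (hXcont t)
  have hwt0 : ∀ x, x ∉ K0 φ → w t x = 0 := fun x hx => hw0 x hx t
  have hI1 : Integrable (fun x => a x * ⟪V x, w t x⟫_ℝ) :=
    integ hφ ha ha2 (hVc.inner (hwcont t)) fun x hx => by rw [hwt0 x hx, inner_zero_right]
  have hI2 : Integrable (fun x => a x * ⟪f t (X t x), w t x⟫_ℝ) :=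
    integ hφ ha ha2 (hfc.inner (hwcont t)) fun x hx => by rw [hwt0 x hx, inner_zero_right]
  have hI3 : Integrable (fun x => a x * ⟪U x, w t x⟫_ℝ) :=
    integ hφ ha ha2 (hUc.inner (hwcont t)) fun x hx => by rw [hwt0 x hx, inner_zero_right]
  have hsplit : (1 / 2 : ℝ) * ∫ x, a x * (2 * ⟪w t x, w' t x⟫_ℝ) =
      (∫ x, a x * ⟪V x, w t x⟫_ℝ) + (∫ x, a x * ⟪f t (X t x), w t x⟫_ℝ) -
        ∫ x, a x * ⟪U x, w t x⟫_ℝ := by
    have hI12 : Integrable (fun x => a x * ⟪V x, w t x⟫_ℝ + a x * ⟪f t (X t x), w t x⟫_ℝ) :=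
      hI1.add hI2
    rw [← integral_const_mul, ← integral_add hI1 hI2, ← integral_sub hI12 hI3]
    refine integral_congr_ae (Eventually.of_forall fun x => ?_)
    have h1 : w' t x = V x + f t (X t x) - U x := by
      show fld φ (c' t - d' t) (X t x) +
          fderiv ℝ (fld φ (c t - d t)) (X t x) (fld φ (c t) (X t x)) =
        (fld φ (c' t) (X t x) + fderiv ℝ (fld φ (c t)) (X t x) (fld φ (c t) (X t x)) -
          f t (X t x)) + f t (X t x) -
          (fld φ (d' t) (X t x) + fderiv ℝ (fld φ (d t)) (X t x) (fld φ (c t) (X t x)))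
      rw [fld_sub, fderiv_fld_sub hφ, sub_add_cancel]
      generalize fld φ (c' t) (X t x) = z1
      generalize fld φ (d' t) (X t x) = z2
      generalize fderiv ℝ (fld φ (c t)) (X t x) (fld φ (c t) (X t x)) = z3
      generalize fderiv ℝ (fld φ (d t)) (X t x) (fld φ (c t) (X t x)) = z4
      abel
    show 1 / 2 * (a x * (2 * ⟪w t x, w' t x⟫_ℝ)) = a x * ⟪V x, w t x⟫_ℝ +
      a x * ⟪f t (X t x), w t x⟫_ℝ - a x * ⟪U x, w t x⟫_ℝ
    rw [h1, real_inner_comm, inner_sub_left, inner_add_left]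
    ring
  -- the equation
  have hVw : (∫ x, a x * ⟪V x, w t x⟫_ℝ) = ∑ l, e l * ∫ x, a x * ⟪V x, φ l (X t x)⟫_ℝ := by
    have hI : ∀ l, Integrable (fun x => a x * ⟪V x, φ l (X t x)⟫_ℝ) := fun l =>
      integ hφ ha ha2 (hVc.inner ((hφ l).smooth.continuous.comp (hXcont t))) fun x hx => by
        rw [hfix x hx, zero_of_notMem hx, inner_zero_right]
    simp only [← integral_const_mul]
    rw [← integral_finsetSum _ fun l _ => (hI l).const_mul (e l)]
    refine integral_congr_ae (Eventually.of_forall fun x => ?_)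
    show a x * ⟪V x, fld φ e (X t x)⟫_ℝ = ∑ l, e l * (a x * ⟪V x, φ l (X t x)⟫_ℝ)
    rw [fld, inner_sum, Finset.mul_sum]
    refine Finset.sum_congr rfl fun l _ => ?_
    rw [inner_smul_right]
    ring
  have hjc : ∀ b : Fin N → ℝ, Continuous (jac (fld φ b)) := by
    intro b
    have h1 : jac (fld φ b) = fun x => ∑ k, b k • jac (φ k) x := funext fun x => jac_fld hφ b x
    rw [h1]
    exact continuous_finsetSum _ fun k _ => (cont_jac hφ k).const_smul (b k)
  have hj0 : ∀ (b : Fin N → ℝ) x, x ∉ K0 φ → jac (fld φ b) x = 0 := by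
    intro b x hx
    rw [jac_fld hφ]
    exact Finset.sum_eq_zero fun k _ => by rw [jac_zero_of_notMem hx, smul_zero]
  have hjw : (∫ x, ⟪jac (fld φ (c t)) x, jac (fld φ e) x⟫_ℝ) =
      ∑ l, e l * ∫ x, ⟪jac (fld φ (c t)) x, jac (φ l) x⟫_ℝ := by
    have hI : ∀ l, Integrable (fun x => ⟪jac (fld φ (c t)) x, jac (φ l) x⟫_ℝ) := fun l =>
      integ1 hφ ((hjc _).inner (cont_jac hφ l)) fun x hx => by
        rw [jac_zero_of_notMem hx, inner_zero_right]
    simp only [← integral_const_mul]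
    rw [← integral_finsetSum _ fun l _ => (hI l).const_mul (e l)]
    refine integral_congr_ae (Eventually.of_forall fun x => ?_)
    show ⟪jac (fld φ (c t)) x, jac (fld φ e) x⟫_ℝ =
      ∑ l, e l * ⟪jac (fld φ (c t)) x, jac (φ l) x⟫_ℝ
    rw [jac_fld hφ e, inner_sum]
    refine Finset.sum_congr rfl fun l _ => ?_
    rw [inner_smul_right]
  have heqn : (∫ x, a x * ⟪V x, w t x⟫_ℝ) + ∫ x, ⟪jac (fld φ (c t)) x, jac (fld φ e) x⟫_ℝ = 0 := by
    rw [hVw, hjw, ← Finset.sum_add_distrib]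
    refine Finset.sum_eq_zero fun l _ => ?_
    rw [← mul_add, hG.eqn t ht l, mul_zero]
  have hjsplit : (∫ x, ⟪jac (fld φ (c t)) x, jac (fld φ e) x⟫_ℝ) =
      nM (jac (fld φ e)) ^ 2 + ∫ x, ⟪jac (fld φ (d t)) x, jac (fld φ e) x⟫_ℝ := by
    rw [nM, Real.sq_sqrt (integral_nonneg fun x => by positivity), ← integral_add]
    · refine integral_congr_ae (Eventually.of_forall fun x => ?_)
      show ⟪jac (fld φ (c t)) x, jac (fld φ e) x⟫_ℝ =
        ‖jac (fld φ e) x‖ ^ 2 + ⟪jac (fld φ (d t)) x, jac (fld φ e) x⟫_ℝ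
      rw [← real_inner_self_eq_norm_sq, ← inner_add_left]
      congr 1
      rw [jac_fld hφ, jac_fld hφ e, jac_fld hφ, ← Finset.sum_add_distrib]
      refine Finset.sum_congr rfl fun k _ => ?_
      rw [← add_smul, he, Pi.sub_apply, sub_add_cancel]
    · exact integ1 hφ ((hjc _).norm.pow 2) fun x hx => by
        rw [hj0 _ x hx, norm_zero]; norm_num
    · exact integ1 hφ ((hjc _).inner (hjc _)) fun x hx => by
        rw [hj0 _ x hx, inner_zero_left]
  rw [hsplit]
  have h9 : (∫ x, a x * ⟪V x, w t x⟫_ℝ) =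
      - (nM (jac (fld φ e)) ^ 2 + ∫ x, ⟪jac (fld φ (d t)) x, jac (fld φ e) x⟫_ℝ) := by
    rw [← hjsplit]
    linarith
  rw [h9]
  show - (nM (jac (fld φ e)) ^ 2 + ∫ x, ⟪jac (fld φ (d t)) x, jac (fld φ e) x⟫_ℝ) +
    (∫ x, a x * ⟪f t (X t x), fld φ e (X t x)⟫_ℝ) -
      (∫ x, a x * ⟪U x, fld φ e (X t x)⟫_ℝ) = _
  ring

end N979MH
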